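import Pool.Agent.Lib_helper26.XSF.All
import Pool.Agent.Lib_helper50.ZP.M4

/-!
# XT: the mean value theorem with the functional equation, and the mass on the arcs. Definitions

Project AAX, part M (MP_5dd4bb_nt): the strength of the Friedlander-Goldston asymptotic for almost
all moduli.
-/

set_option autoImplicit false

namespace Pool.Agent.XT

open Finset Complex MeasureTheory Pool.Agent.Var35 Pool.Agent.Var73 Pool.Agent.HC Pool.Agent.MF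
  Pool.Agent.XS
open scoped ArithmeticFunction ArithmeticFunction.Moebius

/-! ## Dirichlet polynomials and series -/

/-- `∑_{n ≤ N} a_n χ(n) n^(-s)` -/
noncomputable def MB (a : ℕ → ℂ) (N : ℕ) {q : ℕ} (χ : DirichletCharacter ℂ q) (s : ℂ) : ℂ :=
  ∑ n ∈ Icc 1 N, a n * χ (n : ZMod q) * (n : ℂ) ^ (-s)

/-- `∑_{n > N} a_n χ(n) n^(-s)` -/
noncomputable def TB (a : ℕ → ℂ) (N : ℕ) {q : ℕ} (χ : DirichletCharacter ℂ q) (s : ℂ) : ℂ :=
  ∑' n : ℕ, if n ≤ N then 0 else a n * χ (n : ZMod q) * (n : ℂ) ^ (-s)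

/-- the coefficients of `L(s, χ) ∑_{d ≤ z} b_d χ(d) d^(-s) - k`, without the factor `χ(n)` -/
noncomputable def bz (b : ℕ → ℂ) (z : ℕ) (k : ℂ) (n : ℕ) : ℂ :=
  ∑ d ∈ n.divisors.filter (fun d => d ≤ z), b d - (if n = 1 then k else 0)

/-- `-L' M` -/
noncomputable def KL (z : ℕ) {q : ℕ} (χ : DirichletCharacter ℂ q) (s : ℂ) : ℂ :=
  -deriv (GA.LF χ) s * MM z χ s

/-- the length of the mollifier for the moduli in `[R, 2R)`: `⌊R^(16/9)⌋` -/
noncomputable def z9 (R : ℕ) : ℕ := ⌊(R : ℝ) ^ (16 / 9 : ℝ)⌋₊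

/-- the length of the mollifier for the moduli in `[R, 2R)`, `R ≤ K`: `⌈(R √K)^(5/4)⌉` -/
noncomputable def zA (R K : ℕ) : ℕ := ⌈((R : ℝ) * Real.sqrt K) ^ (5 / 4 : ℝ)⌉₊

/-! ## The trivial character -/

/-- `∑_{d ≤ z} μ(d)/d` -/
noncomputable def m0 (z : ℕ) : ℝ := ∑ d ∈ Icc 1 z, (μ d : ℝ) / d

/-- `- ∑_{d ≤ z} μ(d) log d / d` -/
noncomputable def m1 (z : ℕ) : ℝ := -∑ d ∈ Icc 1 z, (μ d : ℝ) * Real.log d / d

/-- the type I part for the trivial character, without its main terms -/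
noncomputable def EJ (z : ℕ) (x : ℝ) : ℝ :=
  if x < 1 then 0 else ∑ n ∈ Icc 1 ⌊x⌋₊, cI z n - m0 z * x * Real.log x +
    (m0 z - m1 z) * (x - 1)

/-- the type II part for the trivial character: `ψ(x) - (x - 1) - EJ z x` for `x ≥ 1` -/
noncomputable def E3 (z : ℕ) (x : ℝ) : ℂ :=
  E0 (1 : DirichletCharacter ℂ 1) x + (if x < 1 then 0 else 1) - (EJ z x : ℂ)

/-- `∑_{d ≤ z} μ(d) d^(-s)` -/
noncomputable def Mz (z : ℕ) (s : ℂ) : ℂ := ∑ n ∈ Icc 1 z, (μ n : ℂ) * (n : ℂ) ^ (-s)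

/-- `-(ζ'/ζ)(1 - ζ M)` minus the principal part at `s = 1`; for `s ≠ 1` it is
`-(ζ'/ζ)(1 - ζ M) - 1/(s-1) + m0 s/(s-1)² - (m0 - m1)/(s-1)` -/
noncomputable def H3 (z : ℕ) (s : ℂ) : ℂ :=
  -logDeriv riemannZeta₁ s +
    dslope (fun w => deriv (fun v => riemannZeta₁ v * Mz z v) w -
      dslope (fun v => riemannZeta₁ v * Mz z v) 1 w) 1 s -
    dslope (fun w => riemannZeta₁ w * deriv (Mz z) w) 1 s

end Pool.Agent.XT
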